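import Pool.Agent.H22.LG.Stm

set_option autoImplicit false

namespace H19.LG

open H22.LG H22.CM Matrix

/-- the diagonal of an upper triangular matrix -/
def dg (n : ℕ) (F : Type) [Field F] [Fintype F] [DecidableEq F] : P n n F →* (Fin n → F) where
  toFun g := fun i => g.1.1 i i
  map_one' := by
    funext i
    show (1 : Matrix (Fin n) (Fin n) F) i i = 1
    exact Matrix.one_apply_eq i
  map_mul' g h := by
    funext i
    show (g.1.1 * h.1.1) i i = g.1.1 i i * h.1.1 i i
    rw [Matrix.mul_apply]
    refine Finset.sum_eq_single i (fun l _ hl => ?_) (fun hi => absurd (Finset.mem_univ _) hi)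
    rcases lt_or_gt_of_ne hl with h1 | h1
    · rw [mem_P.1 g.2 i l l.2 h1, zero_mul]
    · rw [mem_P.1 h.2 l i i.2 h1, mul_zero]

theorem strict_nil {n : ℕ} {F : Type} [Field F] (N : Matrix (Fin n) (Fin n) F)
    (hN : ∀ i j : Fin n, j ≤ i → N i j = 0) : N ^ n = 0 := by
  have h1 : N.IsUpperTriangular := by
    intro i j hij
    exact hN i j (le_of_lt hij)
  have h2 : N.charpoly = Polynomial.X ^ n := by
    rw [Matrix.charpoly_of_isUpperTriangular N h1]
    have : ∀ i : Fin n, (Polynomial.X - Polynomial.C (N i i) : Polynomial F) = Polynomial.X := by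
      intro i; rw [hN i i le_rfl]; simp
    simp [this]
  have h3 := Matrix.aeval_self_charpoly N
  rw [h2] at h3
  simpa using h3

theorem t_SLB : S_SLB := by
  intro F _ _ _ n
  rcases Nat.eq_zero_or_pos n with hn | hn
  · subst hn
    have : Subsingleton (P 0 0 F) := by
      refine ⟨fun a b => Subtype.ext (Units.ext ?_)⟩
      ext i
      exact i.elim0
    infer_instance
  · have : Nonempty (Fin n) := ⟨⟨0, hn⟩⟩
    obtain ⟨p, hp⟩ := CharP.exists F
    have := hp
    have hprime : Fact p.Prime := ⟨CharP.char_is_prime F p⟩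
    let φ : P n n F →* (Fin n → F)ˣ := (dg n F).toHomUnits
    have hfin : Finite φ.ker := inferInstance
    have hpg : IsPGroup p φ.ker := by
      intro g
      refine ⟨n, ?_⟩
      apply Subtype.ext
      apply Subtype.ext
      apply Units.ext
      show g.1.1.1 ^ (p ^ n) = 1
      have hd : ∀ i : Fin n, g.1.1.1 i i = 1 := by
        intro i
        have h1 : φ g.1 = 1 := MonoidHom.mem_ker.1 g.2
        have h2 : ((φ g.1 : (Fin n → F)ˣ) : Fin n → F) = 1 := by rw [h1]; rfl
        exact congrFun h2 i
      obtain ⟨N, hN⟩ : ∃ N : Matrix (Fin n) (Fin n) F, N = g.1.1.1 - 1 := ⟨_, rfl⟩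
      have hN0 : ∀ i j : Fin n, j ≤ i → N i j = 0 := by
        intro i j hij
        rw [hN, Matrix.sub_apply]
        rcases hij.lt_or_eq with h1 | h1
        · rw [mem_P.1 g.1.2 i j j.2 h1, Matrix.one_apply_ne (ne_of_gt h1), sub_zero]
        · subst h1
          rw [hd, Matrix.one_apply_eq, sub_self]
      have hnil := strict_nil N hN0
      have hg : g.1.1.1 = 1 + N := by rw [hN]; abel
      rw [hg, add_pow_char_pow_of_commute p n (Commute.one_left N), one_pow]
      have hle : n ≤ p ^ n := (Nat.lt_pow_self hprime.out.one_lt).le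
      rw [← Nat.add_sub_cancel' hle, pow_add, hnil, zero_mul, add_zero]
    have hnilp : Group.IsNilpotent φ.ker := hpg.isNilpotent
    have hs : Group.IsSolvable φ.ker := inferInstance
    exact Group.isSolvable_of_ker_le_range φ.ker.subtype φ (by rw [Subgroup.range_subtype])

end H19.LG
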