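import Pool.Agent.H22.LG.Stm

set_option autoImplicit false

namespace H19.LG

open H22.LG H22.CM Matrix

/-- transvections as invertible matrices -/
def tv {n : ℕ} {F : Type} [Field F] (i j : Fin n) (h : i ≠ j) (c : F) : GL (Fin n) F :=
  ⟨transvection i j c, transvection i j (-c),
    by rw [transvection_mul_transvection_same i j h, add_neg_cancel, transvection_zero],
    by rw [transvection_mul_transvection_same i j h, neg_add_cancel, transvection_zero]⟩

theorem tv_mem {n k : ℕ} {F : Type} [Field F] [Fintype F] [DecidableEq F] (i j : Fin n) (h : i ≠ j)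
    (c : F) (hj : k ≤ j.1) : tv i j h c ∈ P n k F := by
  rw [mem_P]
  intro a b hb hba
  show transvection i j c a b = 0
  have hbj : b ≠ j := by
    rintro rfl; omega
  rw [transvection, Matrix.add_apply, Matrix.one_apply_ne (ne_of_gt hba)]
  rw [Matrix.single_apply_of_ne _ _ _ _ _ (fun h' => hbj h'.2.symm)]
  simp

theorem t_THR : S_THR := by
  intro F _ _ _ n k hk
  obtain ⟨i0, hi0⟩ : ∃ i : Fin n, i.1 = k := ⟨⟨k, by omega⟩, rfl⟩
  obtain ⟨i1, hi1⟩ : ∃ i : Fin n, i.1 = k + 1 := ⟨⟨k + 1, by omega⟩, rfl⟩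
  have h10 : i1 ≠ i0 := by
    intro h; rw [h] at hi1; omega
  have h01 : i0 ≠ i1 := h10.symm
  set u : GL (Fin n) F := tv i1 i0 h10 1 with hu
  set b : GL (Fin n) F := tv i0 i1 h01 (-1) with hb
  have hum : u ∈ P n k F := tv_mem i1 i0 h10 1 (by omega)
  have hbm : b ∈ P n k F := tv_mem i0 i1 h01 (-1) (by omega)
  have hud : u.1.det = 1 := det_transvection_of_ne i1 i0 h10 1
  have hbd : b.1.det = 1 := det_transvection_of_ne i0 i1 h01 (-1)
  have notin : ∀ g : GL (Fin n) F, g.1 i1 i0 ≠ 0 → g ∉ P n (k + 1) F := by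
    intro g hg hmem
    rw [mem_P] at hmem
    exact hg (hmem i1 i0 (by omega) (by rw [Fin.lt_def]; omega))
  refine ⟨u * b * u, u, ?_, hum, ?_, hud, ?_, ?_, ?_⟩
  · exact (P n k F).mul_mem ((P n k F).mul_mem hum hbm) hum
  · show (u.1 * b.1 * u.1).det = 1
    rw [Matrix.det_mul, Matrix.det_mul, hud, hbd]
    simp
  · apply notin
    show (transvection i1 i0 (1 : F) * transvection i0 i1 (-1 : F) *
      transvection i1 i0 (1 : F)) i1 i0 ≠ 0
    rw [Matrix.mul_assoc, transvection_mul_apply_same,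
      transvection_mul_apply_of_ne i0 i1 i1 i0 h10, transvection_mul_apply_same]
    simp [transvection, h10, h01]
  · apply notin
    show transvection i1 i0 (1 : F) i1 i0 ≠ 0
    simp [transvection, h10]
  · apply notin
    have e : (u * b * u)⁻¹ * u = u⁻¹ * b⁻¹ := by group
    rw [e]
    show (transvection i1 i0 (-1 : F) * transvection i0 i1 (-(-1) : F)) i1 i0 ≠ 0
    rw [transvection_mul_apply_same]
    simp [transvection, h10, h01]

end H19.LG
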